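import Mathlib
import Pool.Agent.Q190.CSDefs
import Pool.Agent.Q190.TruncOctaVol

/-!
# MP_8228af: affine surface-area domination does not imply the volume inequality

In `ℝ³` the octahedron `|x₀| + |x₁| + |x₂| ≤ 12` dominates the truncated octahedron
`|x₀| + |x₁| + |x₂| ≤ 13, |xᵢ| ≤ 8` in affine surface area, but has smaller volume.
-/

namespace Pool.Agent.Results.MP_8228af_gt.TruncatedOctahedron

open MeasureTheory Measure
open Q190

variable {n : ℕ}

/-- The surface area of `C`: the `(n-1)`-dimensional Hausdorff measure of its boundary. -/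
noncomputable def surfaceArea (C : Set (EuclideanSpace ℝ (Fin n))) : ENNReal :=
  μH[(n : ℝ) - 1] (frontier C)

/-- `C₂` dominates `C₁` in affine surface area. -/
def Dominates (C₂ C₁ : Set (EuclideanSpace ℝ (Fin n))) : Prop :=
  ∀ A : EuclideanSpace ℝ (Fin n) ≃ᵃ[ℝ] EuclideanSpace ℝ (Fin n),
    surfaceArea (A '' C₁) ≤ surfaceArea (A '' C₂)

/-- `C` is centrally symmetric: some translate `C - x` satisfies `C - x = -(C - x)`. -/
def CentrallySymmetric (C : Set (EuclideanSpace ℝ (Fin n))) : Prop :=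
  ∃ x : EuclideanSpace ℝ (Fin n), ∀ y, x + y ∈ C ↔ x - y ∈ C

/-- For `n = 3` there are centrally symmetric convex bodies `C₁, C₂` such that `C₂` dominates `C₁`
in affine surface area but `C₁` has larger volume. -/
theorem result : ∃ n : ℕ, 3 ≤ n ∧ ∃ C₁ C₂ : Set (EuclideanSpace ℝ (Fin n)),
    IsConvexBody C₁ ∧ IsConvexBody C₂ ∧ CentrallySymmetric C₁ ∧ CentrallySymmetric C₂ ∧
      Dominates C₂ C₁ ∧ volume C₂ < volume C₁ := by
  refine ⟨3, le_rfl, TruncOcta.K, TruncOcta.L, TruncOcta.K_body, TruncOcta.L_body,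
    ⟨0, fun y => ?_⟩, ⟨0, fun y => ?_⟩, fun A => ?_, TruncOcta.vol_lt⟩
  · rw [zero_add, zero_sub]; exact TruncOcta.K_symm y
  · rw [zero_add, zero_sub]; exact TruncOcta.L_symm y
  · have h := TruncOcta.area_le A
    have e : ((3 : ℕ) : ℝ) - 1 = 2 := by norm_num
    simp only [surfaceArea]
    rw [e]
    exact h

end Pool.Agent.Results.MP_8228af_gt.TruncatedOctahedron
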